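import Pool.Agent.Helper13.TR.StA

/-!
# Project TR (MP_a45945_gt), module CONMON: compact carriers and simple rules
-/

set_option autoImplicit false

namespace Pool.Agent.Helper24.TR

open Set Topology Pool.Agent.Helper13.TR

private lemma mem_cin {X : Type*} [TopologicalSpace X] {S : Set X} {n : ℕ} {c : Ch X n} :
    c ∈ cin S n ↔ ∀ σ ∈ c.support, range σ ⊆ S := by
  unfold cin
  rw [Finsupp.mem_supported]
  exact Iff.rfl

private lemma cin_mono {X : Type*} [TopologicalSpace X] {S T : Set X} (n : ℕ) (h : S ⊆ T) :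
    cin S n ≤ cin T n := by
  intro c hc
  rw [mem_cin] at hc ⊢
  exact fun σ hσ => (hc σ hσ).trans h

private lemma cin_univ {X : Type*} [TopologicalSpace X] (n : ℕ) : cin (univ : Set X) n = ⊤ := by
  rw [eq_top_iff]
  intro c _
  rw [mem_cin]
  exact fun σ _ => subset_univ _

private lemma carrier {X : Type*} [TopologicalSpace X] (k : ℕ) (c : Ch X k) :
    ∃ Q : Set X, IsCompact Q ∧ c ∈ cin Q k ∧ ∀ S : Set X, c ∈ cin S k → Q ⊆ S := by
  refine ⟨⋃ σ ∈ c.support, range σ, ?_, ?_, ?_⟩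
  · exact c.support.isCompact_biUnion fun σ _ => isCompact_range σ.continuous
  · rw [mem_cin]
    intro σ hσ
    exact subset_biUnion_of_mem (u := fun σ : Sx X k => range σ) hσ
  · intro S hS
    rw [mem_cin] at hS
    exact iUnion₂_subset hS

private lemma nul_mono {X : Type*} [TopologicalSpace X] {A B : Set X} (n : ℕ) (h : A ⊆ B) :
    Nul B n ≤ Nul A n := by
  unfold Nul
  exact sup_le_sup_right (cin_mono n (compl_subset_compl.2 h)) _

private lemma bd_mem {X : Type*} [TopologicalSpace X] (S : Set X) (n : ℕ) (c : Ch X (n + 1))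
    (hc : c ∈ cin S (n + 1)) : bd n c ∈ cin S n := by
  rw [mem_cin] at hc
  unfold bd
  rw [Finsupp.linearCombination_apply, Finsupp.sum]
  refine Submodule.sum_mem _ fun σ hσ => Submodule.smul_mem _ _ (Submodule.sum_mem _ fun i _ =>
    Submodule.smul_mem _ _ ?_)
  refine Finsupp.single_mem_supported ℤ (1 : ℤ) ?_
  show range (σ.comp (face n i)) ⊆ S
  intro x hx
  obtain ⟨t, rfl⟩ := hx
  exact hc σ hσ ⟨face n i t, rfl⟩

theorem hCON : StCON := by
  refine ⟨?_, fun X _ k c => carrier k c⟩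
  intro X Z _ _ _ f T k σ hσ
  obtain ⟨ρ, hρ, τ, hτ, rfl⟩ := Submodule.mem_sup.1 hσ
  obtain ⟨Q, hQ, hρQ, hQS⟩ := carrier k ρ
  have hdis : Q ⊆ (f ⁻¹' T)ᶜ := hQS _ hρ
  have hcl : IsClosed (f '' Q) := (hQ.image f.continuous).isClosed
  refine ⟨(f '' Q)ᶜ, hcl.isOpen_compl, ?_, ?_⟩
  · rintro z hz ⟨x, hx, rfl⟩
    exact hdis hx hz
  · refine Submodule.add_mem_sup ?_ hτ
    refine cin_mono k ?_ hρQ
    intro x hx hx2
    exact hx2 ⟨x, hx, rfl⟩

theorem hMON : StMON := by
  intro X _
  refine ⟨fun S T n h => cin_mono n h, ?_, cin_univ, bd_mem, ?_, ?_⟩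
  · intro S T n
    ext c
    rw [Submodule.mem_inf, mem_cin, mem_cin, mem_cin]
    constructor
    · rintro ⟨h1, h2⟩ σ hσ
      exact subset_inter (h1 σ hσ) (h2 σ hσ)
    · intro h
      exact ⟨fun σ hσ => (h σ hσ).trans inter_subset_left, fun σ hσ => (h σ hσ).trans inter_subset_right⟩
  · intro A B n h
    refine ⟨?_, nul_mono n h⟩
    cases n with
    | zero => exact le_rfl
    | succ n => exact Submodule.comap_mono (cin_mono n (compl_subset_compl.2 h))
  · intro n
    unfold PP Nul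
    rw [compl_empty, cin_univ, top_sup_eq]
    exact le_top

end Pool.Agent.Helper24.TR
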